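import Pool.Agent.PWD.Defs

/-!
# PWQ, module SAD: semialgebraic sets over Q, Boolean operations (helper15)

The definition of SA is in Pool.Agent.PWD.Defs.
-/

set_option autoImplicit false

open MvPolynomial Set
open Pool.Agent.PWD (SA)

namespace Pool.Agent.PWQ

variable {i j : Type} {S T : Set (i → ℝ)}

theorem SA_mem_iff (hS : SA S) : ∃ P : Finset (MvPolynomial i ℚ), ∀ x y : i → ℝ,
    (∀ p ∈ P, SignType.sign (aeval x p) = SignType.sign (aeval y p)) → (x ∈ S ↔ y ∈ S) := by
  obtain ⟨P, hP⟩ := hS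
  exact ⟨P, fun x y h => ⟨hP x y h, hP y x fun p hp => (h p hp).symm⟩⟩

theorem SA_not (hS : SA S) : SA {x | x ∉ S} := by
  obtain ⟨P, hP⟩ := SA_mem_iff hS
  exact ⟨P, fun x y h hx hy => hx ((hP x y h).2 hy)⟩

theorem SA_compl (hS : SA S) : SA Sᶜ := SA_not hS

theorem SA_and (hS : SA S) (hT : SA T) : SA {x | x ∈ S ∧ x ∈ T} := by
  classical
  obtain ⟨P, hP⟩ := hS
  obtain ⟨Q, hQ⟩ := hT
  exact ⟨P ∪ Q, fun x y h hx => ⟨hP x y (fun p hp => h p (Finset.mem_union_left _ hp)) hx.1,
    hQ x y (fun p hp => h p (Finset.mem_union_right _ hp)) hx.2⟩⟩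

theorem SA_or (hS : SA S) (hT : SA T) : SA {x | x ∈ S ∨ x ∈ T} := by
  classical
  obtain ⟨P, hP⟩ := hS
  obtain ⟨Q, hQ⟩ := hT
  exact ⟨P ∪ Q, fun x y h hx => hx.imp
    (hP x y fun p hp => h p (Finset.mem_union_left _ hp))
    (hQ x y fun p hp => h p (Finset.mem_union_right _ hp))⟩

theorem SA_inter (hS : SA S) (hT : SA T) : SA (S ∩ T) := SA_and hS hT

theorem SA_union (hS : SA S) (hT : SA T) : SA (S ∪ T) := SA_or hS hT

theorem SA_diff (hS : SA S) (hT : SA T) : SA (S \ T) := SA_inter hS (SA_compl hT)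

theorem SA_imp (hS : SA S) (hT : SA T) : SA {x | x ∈ S → x ∈ T} := by
  have h := SA_or (SA_not hS) hT
  have e : {x | x ∈ {x | x ∉ S} ∨ x ∈ T} = {x | x ∈ S → x ∈ T} := by
    ext x
    exact imp_iff_not_or.symm
  rwa [e] at h

theorem SA_iff (hS : SA S) (hT : SA T) : SA {x | x ∈ S ↔ x ∈ T} := by
  have h := SA_and (SA_imp hS hT) (SA_imp hT hS)
  have e : {x | x ∈ {x | x ∈ S → x ∈ T} ∧ x ∈ {x | x ∈ T → x ∈ S}} = {x | x ∈ S ↔ x ∈ T} := by
    ext x
    exact iff_iff_implies_and_implies.symm
  rwa [e] at h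

theorem SA_empty : SA (∅ : Set (i → ℝ)) := ⟨∅, fun _ _ _ h => h⟩

theorem SA_univ : SA (univ : Set (i → ℝ)) := ⟨∅, fun _ _ _ h => h⟩

theorem SA_const (p : Prop) : SA {_x : i → ℝ | p} := ⟨∅, fun _ _ _ h => h⟩

theorem SA_sign (p : MvPolynomial i ℚ) (s : SignType) : SA {x | SignType.sign (aeval x p) = s} :=
  ⟨{p}, fun x y h hx => by
    have := h p (Finset.mem_singleton_self _)
    change SignType.sign (aeval y p) = s
    rw [← this]
    exact hx⟩

theorem SA_pos (p : MvPolynomial i ℚ) : SA {x : i → ℝ | 0 < aeval x p} := by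
  have h := SA_sign p 1
  simpa only [sign_eq_one_iff] using h

theorem SA_zero (p : MvPolynomial i ℚ) : SA {x : i → ℝ | aeval x p = 0} := by
  have h := SA_sign p 0
  simpa only [sign_eq_zero_iff] using h

theorem SA_nonneg (p : MvPolynomial i ℚ) : SA {x : i → ℝ | 0 ≤ aeval x p} := by
  have h := SA_not (SA_sign p (-1))
  have e : {x : i → ℝ | x ∉ {x | SignType.sign (aeval x p) = -1}} =
      {x | 0 ≤ aeval x p} := by
    ext x
    change ¬ SignType.sign (aeval x p) = -1 ↔ _
    rw [sign_eq_neg_one_iff, not_lt]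
    rfl
  rwa [e] at h

theorem SA_lt (p q : MvPolynomial i ℚ) : SA {x : i → ℝ | aeval x p < aeval x q} := by
  have h := SA_pos (q - p)
  simpa only [map_sub, sub_pos] using h

theorem SA_le (p q : MvPolynomial i ℚ) : SA {x : i → ℝ | aeval x p ≤ aeval x q} := by
  have h := SA_nonneg (q - p)
  simpa only [map_sub, sub_nonneg] using h

theorem SA_eq (p q : MvPolynomial i ℚ) : SA {x : i → ℝ | aeval x p = aeval x q} := by
  have h := SA_zero (p - q)
  simpa only [map_sub, sub_eq_zero] using h

/-- polynomial substitution -/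
theorem SA_sub {S : Set (j → ℝ)} (hS : SA S) (f : j → MvPolynomial i ℚ) :
    SA {x : i → ℝ | (fun k => aeval x (f k)) ∈ S} := by
  classical
  obtain ⟨P, hP⟩ := hS
  refine ⟨P.image (bind₁ f), fun x y h hx => hP _ _ (fun p hp => ?_) hx⟩
  have := h _ (Finset.mem_image_of_mem _ hp)
  rwa [aeval_bind₁, aeval_bind₁] at this

/-- reindexing -/
theorem SA_reindex {S : Set (j → ℝ)} (hS : SA S) (f : j → i) :
    SA {x : i → ℝ | (fun k => x (f k)) ∈ S} := by
  have h := SA_sub hS fun k => X (f k)
  simpa only [aeval_X] using h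

/-- finite intersections -/
theorem SA_ball {κ : Type} (s : Finset κ) (S : κ → Set (i → ℝ)) (hS : ∀ k ∈ s, SA (S k)) :
    SA {x | ∀ k ∈ s, x ∈ S k} := by
  classical
  induction s using Finset.induction_on with
  | empty =>
    have e : {x : i → ℝ | ∀ k ∈ (∅ : Finset κ), x ∈ S k} = univ :=
      eq_univ_of_forall fun x k hk => absurd hk (Finset.notMem_empty k)
    rw [e]
    exact SA_univ
  | insert a s _ ih =>
    have h := SA_and (hS a (Finset.mem_insert_self _ _))
      (ih fun k hk => hS k (Finset.mem_insert_of_mem hk))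
    have e : {x | x ∈ S a ∧ x ∈ {x | ∀ k ∈ s, x ∈ S k}} = {x | ∀ k ∈ insert a s, x ∈ S k} := by
      ext x
      exact (Finset.forall_mem_insert a s fun k => x ∈ S k).symm
    rwa [e] at h

/-- finite unions -/
theorem SA_bex {κ : Type} (s : Finset κ) (S : κ → Set (i → ℝ)) (hS : ∀ k ∈ s, SA (S k)) :
    SA {x | ∃ k ∈ s, x ∈ S k} := by
  have h := SA_not (SA_ball s (fun k => {x | x ∉ S k}) fun k hk => SA_not (hS k hk))
  have e : {x | x ∉ {x | ∀ k ∈ s, x ∈ {x | x ∉ S k}}} = {x | ∃ k ∈ s, x ∈ S k} := by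
    ext x
    change ¬ (∀ k ∈ s, ¬ x ∈ S k) ↔ _
    push Not
    rfl
  rwa [e] at h

/-- a set is semialgebraic iff it is a union of sign cells of finitely many polynomials -/
theorem SA_cells (hS : SA S) : ∃ (P : Finset (MvPolynomial i ℚ)) (C : Set (P → SignType)),
    S = {x | (fun p : P => SignType.sign (aeval x p.1)) ∈ C} := by
  obtain ⟨P, hP⟩ := hS
  refine ⟨P, {c | ∃ x ∈ S, (fun p : P => SignType.sign (aeval x p.1)) = c}, ?_⟩
  ext y
  constructor
  · exact fun hy => ⟨y, hy, rfl⟩
  · rintro ⟨x, hx, hxy⟩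
    exact hP x y (fun p hp => congrFun hxy ⟨p, hp⟩) hx

/-- a set is semialgebraic over `ℚ` iff it is a finite union of sets
`{e = 0, g > 0 for g in a finite set}` with `e` and `g` over `ℚ` -/
theorem SA_iff_basic : SA S ↔ ∃ T : Finset (MvPolynomial i ℚ × Finset (MvPolynomial i ℚ)),
    S = {x | ∃ c ∈ T, aeval x c.1 = 0 ∧ ∀ g ∈ c.2, 0 < aeval x g} := by
  classical
  constructor
  · intro hS
    obtain ⟨P, C, hC⟩ := SA_cells hS
    have hfin : C.Finite := toFinite C
    let E : (P → SignType) → MvPolynomial i ℚ × Finset (MvPolynomial i ℚ) := fun c =>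
      (∑ p : P, if c p = 0 then p.1 ^ 2 else 0,
        Finset.univ.biUnion fun p : P => if c p = 1 then {p.1} else if c p = -1 then {-p.1} else ∅)
    refine ⟨hfin.toFinset.image E, ?_⟩
    have h1 : ∀ (c : P → SignType) (x : i → ℝ),
        (aeval x (E c).1 = 0 ∧ ∀ g ∈ (E c).2, 0 < aeval x g) ↔
        (fun p : P => SignType.sign (aeval x p.1)) = c := by
      intro c x
      have h2 : aeval x (E c).1 = 0 ↔ ∀ p : P, c p = 0 → aeval x p.1 = 0 := by
        change aeval x (∑ p : P, if c p = 0 then p.1 ^ 2 else 0) = 0 ↔ _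
        rw [map_sum, Finset.sum_eq_zero_iff_of_nonneg]
        · constructor
          · intro h p hp
            have := h p (Finset.mem_univ _)
            rw [if_pos hp, map_pow] at this
            exact (pow_eq_zero_iff two_ne_zero).1 this
          · intro h p _
            split_ifs with hp
            · rw [map_pow, h p hp]
              exact zero_pow two_ne_zero
            · exact map_zero _
        · intro p _
          split_ifs
          · rw [map_pow]
            exact sq_nonneg _
          · rw [map_zero]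
      have h3 : (∀ g ∈ (E c).2, 0 < aeval x g) ↔
          ∀ p : P, (c p = 1 → 0 < aeval x p.1) ∧ (c p = -1 → aeval x p.1 < 0) := by
        change (∀ g ∈ Finset.univ.biUnion fun p : P =>
          if c p = 1 then {p.1} else if c p = -1 then {-p.1} else ∅, 0 < aeval x g) ↔ _
        constructor
        · intro h p
          constructor
          · intro hp
            refine h p.1 (Finset.mem_biUnion.2 ⟨p, Finset.mem_univ _, ?_⟩)
            rw [if_pos hp]
            exact Finset.mem_singleton_self _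
          · intro hp
            have := h (-p.1) (Finset.mem_biUnion.2 ⟨p, Finset.mem_univ _, by
              rw [if_neg (by rw [hp]; decide), if_pos hp]
              exact Finset.mem_singleton_self _⟩)
            rw [map_neg] at this
            linarith
        · intro h g hg
          obtain ⟨p, _, hp⟩ := Finset.mem_biUnion.1 hg
          split_ifs at hp with h4 h5
          · rw [Finset.mem_singleton.1 hp]
            exact (h p).1 h4
          · rw [Finset.mem_singleton.1 hp, map_neg]
            linarith [(h p).2 h5]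
          · exact absurd hp (Finset.notMem_empty _)
      rw [h2, h3, funext_iff]
      constructor
      · rintro ⟨h4, h5⟩ p
        rcases SignType.trichotomy (c p) with h | h | h
        · rw [h, sign_eq_neg_one_iff]
          exact (h5 p).2 h
        · rw [h, sign_eq_zero_iff]
          exact h4 p h
        · rw [h, sign_eq_one_iff]
          exact (h5 p).1 h
      · intro h
        refine ⟨fun p hp => ?_, fun p => ⟨fun hp => ?_, fun hp => ?_⟩⟩
        · rw [← sign_eq_zero_iff, h p, hp]
        · rw [← sign_eq_one_iff, h p, hp]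
        · rw [← sign_eq_neg_one_iff, h p, hp]
    rw [hC]
    ext x
    constructor
    · intro hx
      exact ⟨E _, Finset.mem_image_of_mem _ (hfin.mem_toFinset.2 hx), (h1 _ x).2 rfl⟩
    · rintro ⟨c', hc', h4⟩
      obtain ⟨c, hc, rfl⟩ := Finset.mem_image.1 hc'
      have h5 := (h1 c x).1 h4
      change (fun p : P => SignType.sign (aeval x p.1)) ∈ C
      rw [h5]
      exact hfin.mem_toFinset.1 hc
  · rintro ⟨T, rfl⟩
    refine SA_bex T (fun c => {x | aeval x c.1 = 0 ∧ ∀ g ∈ c.2, 0 < aeval x g}) fun c _ => ?_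
    exact SA_and (SA_zero c.1) (SA_ball c.2 (fun g => {x | 0 < aeval x g}) fun g _ => SA_pos g)

end Pool.Agent.PWQ
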