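import Pool.Agent.PWQ.KEY
import Pool.Agent.PWQ.SAD

/-!
# PWQ, module PRJ: quantifier elimination (helper15)
-/

set_option autoImplicit false

open MvPolynomial Set
open Pool.Agent.PWD (SA pt)

namespace Pool.Agent.PWQ

variable {i j : Type}

theorem aeval_elim (x : i → ℝ) (t : ℝ) (p : MvPolynomial (Option i) ℚ) :
    aeval (pt t x) p =
      ((optionEquivLeft ℚ i p).map (aeval x : MvPolynomial i ℚ →ₐ[ℚ] ℝ).toRingHom).eval t := by
  induction p using MvPolynomial.induction_on with
  | C r => simp
  | add p q hp hq => rw [map_add, map_add, Polynomial.map_add, Polynomial.eval_add, hp, hq]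
  | mul_X p o hp =>
    rw [map_mul, map_mul, Polynomial.map_mul, Polynomial.eval_mul, hp]
    congr 1
    cases o with
    | none => simp [Pool.Agent.PWD.pt]
    | some k => simp [Pool.Agent.PWD.pt]

/-- **fibre fact**: for finitely many polynomials in `x, t` there are finitely many polynomials in
`x` whose signs determine the sign pattern of the fibre up to an order isomorphism -/
theorem exists_fibre (F : Finset (MvPolynomial (Option i) ℚ)) :
    ∃ G : Finset (MvPolynomial i ℚ), ∀ x y : i → ℝ,
      (∀ p ∈ G, SignType.sign (aeval x p) = SignType.sign (aeval y p)) →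
      ∃ φ : ℝ ≃o ℝ, ∀ p ∈ F, ∀ t : ℝ,
        SignType.sign (aeval (pt t x) p) =
          SignType.sign (aeval (pt (φ t) y) p) := by
  classical
  obtain ⟨G, hG⟩ := exists_fib (F.image (optionEquivLeft ℚ i))
  refine ⟨G, fun x y h => ?_⟩
  obtain ⟨φ, hφ⟩ := hG (aeval x : MvPolynomial i ℚ →ₐ[ℚ] ℝ).toRingHom
    (aeval y : MvPolynomial i ℚ →ₐ[ℚ] ℝ).toRingHom h
  refine ⟨φ, fun p hp t => ?_⟩
  rw [aeval_elim, aeval_elim]
  exact hφ _ (Finset.mem_image_of_mem _ hp) t

/-- **projection** -/
theorem SA_ex {S : Set (Option i → ℝ)} (hS : SA S) :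
    SA {x : i → ℝ | ∃ t : ℝ, pt t x ∈ S} := by
  obtain ⟨P, hP⟩ := hS
  obtain ⟨G, hG⟩ := exists_fibre P
  refine ⟨G, fun x y h hx => ?_⟩
  obtain ⟨t, ht⟩ := hx
  obtain ⟨φ, hφ⟩ := hG x y h
  exact ⟨φ t, hP _ _ (fun p hp => hφ p hp t) ht⟩

theorem SA_all {S : Set (Option i → ℝ)} (hS : SA S) :
    SA {x : i → ℝ | ∀ t : ℝ, pt t x ∈ S} := by
  have h := SA_not (SA_ex (SA_not hS))
  have e : {x : i → ℝ | x ∉ {x : i → ℝ | ∃ t : ℝ, pt t x ∈
      {x | x ∉ S}}} = {x : i → ℝ | ∀ t : ℝ, pt t x ∈ S} := by
    ext x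
    change ¬ (∃ t : ℝ, ¬ _) ↔ _
    rw [not_exists_not]
    rfl
  rwa [e] at h

/-- projection along finitely many variables -/
theorem SA_ex_fin [Finite j] {S : Set (i ⊕ j → ℝ)} (hS : SA S) :
    SA {x : i → ℝ | ∃ y : j → ℝ, Sum.elim x y ∈ S} := by
  revert i S
  induction j using Finite.induction_empty_option with
  | of_equiv e ih =>
    intro i S hS
    have h := ih (SA_reindex hS (Sum.map id e.symm))
    refine (congrArg SA ?_).mp h
    ext x
    constructor
    · rintro ⟨y, hy⟩
      refine ⟨y ∘ e.symm, ?_⟩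
      have e2 : (fun k => Sum.elim x y (Sum.map id e.symm k)) = Sum.elim x (y ∘ e.symm) := by
        funext k
        cases k <;> rfl
      rw [← e2]
      exact hy
    · rintro ⟨y, hy⟩
      refine ⟨y ∘ e, ?_⟩
      have e2 : (fun k => Sum.elim x (y ∘ e) (Sum.map id e.symm k)) = Sum.elim x y := by
        funext k
        cases k
        · rfl
        · simp
      change (fun k => Sum.elim x (y ∘ e) (Sum.map id e.symm k)) ∈ S
      rw [e2]
      exact hy
  | h_empty =>
    intro i S hS
    have h := SA_reindex (i := i) hS (Sum.elim id PEmpty.elim)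
    refine (congrArg SA ?_).mp h
    ext x
    have e2 : ∀ y : PEmpty → ℝ, (fun k => x (Sum.elim id PEmpty.elim k)) = Sum.elim x y := by
      intro y
      funext k
      cases k with
      | inl k => rfl
      | inr k => exact k.elim
    constructor
    · intro hx
      refine ⟨PEmpty.elim, ?_⟩
      rw [← e2]
      exact hx
    · rintro ⟨y, hy⟩
      change (fun k => x (Sum.elim id PEmpty.elim k)) ∈ S
      rw [e2 y]
      exact hy
  | @h_option j _ ih =>
    intro i S hS
    have h1 := SA_reindex (i := Option i ⊕ j) hS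
      (Sum.elim (fun a => Sum.inl (some a)) fun o => o.elim (Sum.inl none) Sum.inr)
    have h2 := SA_ex (ih h1)
    refine (congrArg SA ?_).mp h2
    ext x
    have e2 : ∀ (t : ℝ) (y : j → ℝ), (fun k => Sum.elim (fun o : Option i => o.elim t x) y
        (Sum.elim (fun a => Sum.inl (some a)) (fun o : Option j => o.elim (Sum.inl none) Sum.inr)
          k)) = Sum.elim x fun o : Option j => o.elim t y := by
      intro t y
      funext k
      cases k with
      | inl k => rfl
      | inr o => cases o <;> rfl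
    constructor
    · rintro ⟨t, y, hy⟩
      refine ⟨fun o => o.elim t y, ?_⟩
      rw [← e2]
      exact hy
    · rintro ⟨z, hz⟩
      refine ⟨z none, fun k => z (some k), ?_⟩
      change (fun k => Sum.elim (fun o : Option i => o.elim (z none) x) (fun k => z (some k))
        (Sum.elim (fun a => Sum.inl (some a)) (fun o : Option j => o.elim (Sum.inl none) Sum.inr)
          k)) ∈ S
      rw [e2]
      have e3 : (fun o : Option j => o.elim (z none) fun k => z (some k)) = z := by
        funext o
        cases o <;> rfl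
      rw [e3]
      exact hz

theorem SA_all_fin [Finite j] {S : Set (i ⊕ j → ℝ)} (hS : SA S) :
    SA {x : i → ℝ | ∀ y : j → ℝ, Sum.elim x y ∈ S} := by
  have h := SA_not (SA_ex_fin (SA_not hS))
  have e : {x : i → ℝ | x ∉ {x : i → ℝ | ∃ y : j → ℝ, Sum.elim x y ∈ {x | x ∉ S}}} =
      {x : i → ℝ | ∀ y : j → ℝ, Sum.elim x y ∈ S} := by
    ext x
    change ¬ (∃ y : j → ℝ, ¬ _) ↔ _
    rw [not_exists_not]
    rfl
  rwa [e] at h

end Pool.Agent.PWQ
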