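import Pool.Agent.PWD.StE
import Pool.Agent.PWD.ZNL
import Pool.Agent.PWQ.PRJ

/-!
# PWQ, module MSB: measurability of semialgebraic sets and functions, boxes (helper15)
-/

set_option autoImplicit false

open MvPolynomial Set MeasureTheory
open Pool.Agent.PWD (SA pt graph)

namespace Pool.Agent.PWQ

theorem continuous_aeval' {ι : Type} (p : MvPolynomial ι ℚ) :
    Continuous fun x : ι → ℝ => aeval x p := by
  have h := MvPolynomial.continuous_eval (map (algebraMap ℚ ℝ) p)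
  simpa only [eval_map, ← aeval_def] using h

theorem isOpen_pos {ι : Type} (s : Finset (MvPolynomial ι ℚ)) :
    IsOpen {x : ι → ℝ | ∀ g ∈ s, 0 < aeval x g} := by
  have e : {x : ι → ℝ | ∀ g ∈ s, 0 < aeval x g} = ⋂ g ∈ s, {x | 0 < aeval x g} := by
    ext x
    simp
  rw [e]
  exact isOpen_biInter_finset fun g _ => isOpen_lt continuous_const (continuous_aeval' g)

theorem eq_biUnion {ι : Type} (T : Finset (MvPolynomial ι ℚ × Finset (MvPolynomial ι ℚ))) :
    {x : ι → ℝ | ∃ c ∈ T, aeval x c.1 = 0 ∧ ∀ g ∈ c.2, 0 < aeval x g} =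
      ⋃ c ∈ T, {x | aeval x c.1 = 0 ∧ ∀ g ∈ c.2, 0 < aeval x g} := by
  ext x
  rw [mem_iUnion₂]
  constructor
  · rintro ⟨c, hc, h⟩
    exact ⟨c, hc, h⟩
  · rintro ⟨c, hc, h⟩
    exact ⟨c, hc, h⟩

theorem measurableSet_of_SA {ι : Type} [Fintype ι] {S : Set (ι → ℝ)} (hS : SA S) :
    MeasurableSet S := by
  obtain ⟨T, rfl⟩ := SA_iff_basic.1 hS
  rw [eq_biUnion]
  refine Finset.measurableSet_biUnion T fun c _ => ?_
  exact (isClosed_eq (continuous_aeval' c.1) continuous_const).measurableSet.inter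
    (isOpen_pos c.2).measurableSet

theorem thm_MSS : Pool.Agent.PWD.St_MSS := fun _ hS => measurableSet_of_SA hS

theorem SA_graph_lt {ι : Type} {A : (ι → ℝ) → ℝ} (hA : SA (graph A)) (q : ℚ) :
    SA {x : ι → ℝ | A x < q} := by
  have h := SA_ex (SA_and hA (SA_lt (X none) (C q)))
  refine (congrArg SA ?_).mp h
  ext x
  constructor
  · rintro ⟨t, h1, h2⟩
    change t = A x at h1
    change aeval (pt t x) (X none) < aeval (pt t x) (C q) at h2
    rw [aeval_X, aeval_C] at h2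
    change t < (q : ℝ) at h2
    rw [h1] at h2
    exact h2
  · intro hx
    refine ⟨A x, rfl, ?_⟩
    change aeval (pt (A x) x) (X none) < aeval (pt (A x) x) (C q)
    rw [aeval_X, aeval_C]
    exact hx

theorem measurable_of_SA {ι : Type} [Fintype ι] {A : (ι → ℝ) → ℝ} (hA : SA (graph A)) :
    Measurable A := by
  refine measurable_of_Iio fun c => ?_
  have e : A ⁻¹' Iio c = ⋃ (q : ℚ) (_ : (q : ℝ) < c), {x | A x < q} := by
    ext x
    rw [mem_iUnion₂]
    constructor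
    · intro h
      obtain ⟨q, h1, h2⟩ := exists_rat_btwn (show A x < c from h)
      exact ⟨q, h2, h1⟩
    · rintro ⟨q, h1, h2⟩
      exact lt_trans h2 h1
  rw [e]
  exact MeasurableSet.iUnion fun q => MeasurableSet.iUnion fun _ =>
    measurableSet_of_SA (SA_graph_lt hA q)

theorem thm_MSF : Pool.Agent.PWD.St_MSF := fun _ hA => measurable_of_SA hA

theorem exists_box {ι : Type} [Fintype ι] {S : Set (ι → ℝ)} (hS : SA S) (h0 : volume S ≠ 0) :
    ∃ a b : ι → ℚ, (∀ i, a i < b i) ∧ {x : ι → ℝ | ∀ i, (a i : ℝ) < x i ∧ x i < b i} ⊆ S := by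
  obtain ⟨T, hT⟩ := SA_iff_basic.1 hS
  have h1 : ∃ c ∈ T, volume {x : ι → ℝ | aeval x c.1 = 0 ∧ ∀ g ∈ c.2, 0 < aeval x g} ≠ 0 := by
    by_contra h
    push Not at h
    apply h0
    rw [hT, eq_biUnion]
    exact (measure_biUnion_null_iff T.countable_toSet).2 h
  obtain ⟨c, hc, h2⟩ := h1
  have h3 : c.1 = 0 := by
    by_contra h3
    have h4 := Pool.Agent.PWD.ae_aeval_ne c.1 h3
    rw [ae_iff] at h4
    exact h2 (measure_mono_null (fun x hx => not_not.2 hx.1) h4)
  obtain ⟨x, hx⟩ := nonempty_of_measure_ne_zero h2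
  obtain ⟨δ, hδ, hball⟩ := Metric.isOpen_iff.1 (isOpen_pos c.2) x hx.2
  have h4 : ∀ i, ∃ q : ℚ, x i - δ < q ∧ (q : ℝ) < x i := fun i =>
    exists_rat_btwn (sub_lt_self _ hδ)
  have h5 : ∀ i, ∃ q : ℚ, x i < q ∧ (q : ℝ) < x i + δ := fun i =>
    exists_rat_btwn (lt_add_of_pos_right _ hδ)
  choose a ha1 ha2 using h4
  choose b hb1 hb2 using h5
  refine ⟨a, b, fun i => by exact_mod_cast (ha2 i).trans (hb1 i), fun y hy => ?_⟩
  rw [hT]
  refine ⟨c, hc, by rw [h3, map_zero], hball ?_⟩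
  rw [Metric.mem_ball, dist_pi_lt_iff hδ]
  intro i
  rw [Real.dist_eq, abs_lt]
  constructor
  · linarith [ha1 i, (hy i).1]
  · linarith [hb2 i, (hy i).2]

theorem thm_BOX : Pool.Agent.PWD.St_BOX := fun _ hS h0 => exists_box hS h0

end Pool.Agent.PWQ
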