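import Mathlib

/-!
# PWQ, module CLO: finite sets of polynomials closed under derivative, eraseLead, pseudo-remainder
(helper15)
-/

set_option autoImplicit false

open Polynomial

namespace Pool.Agent.PWQ

/-- closure under operations which lower the degree -/
theorem exists_closed {α : Type} [DecidableEq α] (deg : α → ℕ) (z : α) (F : α → α → Finset α)
    (hF : ∀ a b, ∀ c ∈ F a b, c = z ∨ (deg c < deg a ∧ deg c < deg b)) (S : Finset α) :
    ∃ T : Finset α, S ⊆ T ∧ z ∈ T ∧ ∀ a ∈ T, ∀ b ∈ T, F a b ⊆ T := by
  obtain ⟨K, hK⟩ : ∃ K, ∀ a ∈ insert z S, deg a < K :=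
    ⟨(insert z S).sup deg + 1, fun a ha => Nat.lt_succ_of_le (Finset.le_sup ha)⟩
  have key : ∀ j, ∃ T : Finset α, S ⊆ T ∧ z ∈ T ∧ ∀ a ∈ T, ∀ b ∈ T, K - j ≤ deg a →
      K - j ≤ deg b → F a b ⊆ T := by
    intro j
    induction j with
    | zero =>
      refine ⟨insert z S, Finset.subset_insert _ _, Finset.mem_insert_self _ _, ?_⟩
      intro a ha b _ h
      have := hK a ha
      omega
    | succ j ih =>
      obtain ⟨T, hST, hz, hT⟩ := ih
      rcases Nat.lt_or_ge j K with hj | hj
      · obtain ⟨k, hk⟩ : ∃ k, K - (j + 1) = k := ⟨_, rfl⟩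
        have hk' : K - j = k + 1 := by omega
        rw [hk'] at hT
        rw [hk]
        refine ⟨T ∪ ((T ×ˢ T).filter fun x => deg x.1 = k ∨ deg x.2 = k).biUnion
          fun x => F x.1 x.2, fun a ha => Finset.mem_union_left _ (hST ha),
          Finset.mem_union_left _ hz, ?_⟩
        have h1 : ∀ c ∈ T ∪ ((T ×ˢ T).filter fun x => deg x.1 = k ∨ deg x.2 = k).biUnion
            fun x => F x.1 x.2, k ≤ deg c → c ∈ T := by
          intro c hc hkc
          rcases Finset.mem_union.1 hc with h | h
          · exact h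
          · obtain ⟨⟨a, b⟩, hab, hc'⟩ := Finset.mem_biUnion.1 h
            rw [Finset.mem_filter] at hab
            rcases hF a b c hc' with rfl | ⟨h2, h3⟩
            · exact hz
            · exfalso
              rcases hab.2 with h4 | h4
              · change deg a = k at h4
                omega
              · change deg b = k at h4
                omega
        intro a ha b hb hka hkb c hc
        have ha' := h1 a ha hka
        have hb' := h1 b hb hkb
        by_cases h2 : deg a = k ∨ deg b = k
        · refine Finset.mem_union_right _ (Finset.mem_biUnion.2 ⟨(a, b), ?_, hc⟩)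
          rw [Finset.mem_filter, Finset.mem_product]
          exact ⟨⟨ha', hb'⟩, h2⟩
        · rw [not_or] at h2
          exact Finset.mem_union_left _ (hT a ha' b hb' (by omega) (by omega) hc)
      · refine ⟨T, hST, hz, ?_⟩
        have : K - (j + 1) = K - j := by omega
        rw [this]
        exact hT
  obtain ⟨T, h1, h2, h3⟩ := key K
  rw [Nat.sub_self] at h3
  exact ⟨T, h1, h2, fun a ha b hb => h3 a ha b hb (Nat.zero_le _) (Nat.zero_le _)⟩

variable {A : Type} [CommRing A]

/-- pseudo-remainder with an even power of the leading coefficient -/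
theorem exists_prem (q : A[X]) (hq : 1 ≤ q.natDegree) (p : A[X]) :
    ∃ N : ℕ, ∃ s r : A[X], C q.leadingCoeff ^ (2 * N) * p = s * q + r ∧
      r.natDegree < q.natDegree := by
  obtain ⟨d, hd⟩ : ∃ d, p.natDegree ≤ d := ⟨_, le_rfl⟩
  induction d using Nat.strong_induction_on generalizing p with
  | _ d ih =>
    by_cases h : p.natDegree < q.natDegree
    · exact ⟨0, 0, p, by simp, h⟩
    · rw [not_lt] at h
      obtain ⟨c, hc⟩ : ∃ c, c = q.leadingCoeff := ⟨_, rfl⟩
      obtain ⟨p1, hp1⟩ : ∃ p1, p1 = C (c ^ 2) * p -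
        C (c * p.leadingCoeff) * X ^ (p.natDegree - q.natDegree) * q := ⟨_, rfl⟩
      have h1 : p1.natDegree ≤ p.natDegree := by
        rw [hp1]
        refine (natDegree_sub_le _ _).trans (max_le (natDegree_C_mul_le _ _) ?_)
        refine natDegree_mul_le.trans ?_
        have := natDegree_C_mul_X_pow_le (c * p.leadingCoeff) (p.natDegree - q.natDegree)
        omega
      have h2 : p1.coeff p.natDegree = 0 := by
        have e : p.natDegree = q.natDegree + (p.natDegree - q.natDegree) := by omega
        have e2 : (C (c * p.leadingCoeff) * X ^ (p.natDegree - q.natDegree) * q).coeff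
            p.natDegree = c * p.leadingCoeff * c := by
          rw [mul_assoc, coeff_C_mul]
          congr 1
          conv_lhs => rw [e]
          rw [Nat.add_sub_cancel_left, coeff_X_pow_mul, hc]
          rfl
        rw [hp1, coeff_sub, coeff_C_mul, e2, coeff_natDegree]
        ring
      have h3 : p1.natDegree < p.natDegree := by
        refine lt_of_le_of_ne h1 fun h4 => ?_
        have h5 : p1 = 0 := by
          rw [← leadingCoeff_eq_zero, leadingCoeff, h4, h2]
        rw [h5, natDegree_zero] at h4
        omega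
      obtain ⟨N, s, r, h4, h5⟩ := ih p1.natDegree (h3.trans_le hd) p1 le_rfl
      refine ⟨N + 1, s + C q.leadingCoeff ^ (2 * N) *
        (C (c * p.leadingCoeff) * X ^ (p.natDegree - q.natDegree)), r, ?_, h5⟩
      have h6 : C q.leadingCoeff ^ (2 * (N + 1)) * p = C q.leadingCoeff ^ (2 * N) *
          (C (c ^ 2) * p) := by
        rw [hc, C_pow]
        ring
      have h7 : C (c ^ 2) * p = p1 +
          C (c * p.leadingCoeff) * X ^ (p.natDegree - q.natDegree) * q := by
        rw [hp1]
        ring
      rw [h6, h7, mul_add, h4]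
      ring

/-- **CLO** -/
theorem exists_clo (S : Finset A[X]) : ∃ T : Finset A[X], S ⊆ T ∧ 0 ∈ T ∧
    (∀ a ∈ T, derivative a ∈ T) ∧ (∀ a ∈ T, eraseLead a ∈ T) ∧
    ∀ a ∈ T, ∀ b ∈ T, 1 ≤ b.natDegree → b.natDegree ≤ a.natDegree →
      ∃ N : ℕ, ∃ s, ∃ r ∈ T, C b.leadingCoeff ^ (2 * N) * a = s * b + r ∧
        r.natDegree < b.natDegree := by
  classical
  have h1 : ∀ a b : A[X], ∃ r : A[X], (r = 0 ∨ (r.natDegree < a.natDegree ∧
      r.natDegree < b.natDegree)) ∧ (1 ≤ b.natDegree → b.natDegree ≤ a.natDegree →
      ∃ N : ℕ, ∃ s, C b.leadingCoeff ^ (2 * N) * a = s * b + r ∧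
        r.natDegree < b.natDegree) := by
    intro a b
    by_cases hb : 1 ≤ b.natDegree
    · by_cases hab : b.natDegree ≤ a.natDegree
      · obtain ⟨N, s, r, h2, h3⟩ := exists_prem b hb a
        exact ⟨r, Or.inr ⟨h3.trans_le hab, h3⟩, fun _ _ => ⟨N, s, h2, h3⟩⟩
      · exact ⟨0, Or.inl rfl, fun _ h => absurd h hab⟩
    · exact ⟨0, Or.inl rfl, fun h => absurd h hb⟩
  choose R hR1 hR2 using h1
  obtain ⟨T, h2, h3, h4⟩ := exists_closed (fun a : A[X] => a.natDegree) 0
    (fun a b => (if a = b then {derivative a, eraseLead a} else ∅) ∪ {R a b}) (by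
      intro a b c hc
      rcases Finset.mem_union.1 hc with h | h
      · split_ifs at h with hab
        · subst hab
          rw [Finset.mem_insert, Finset.mem_singleton] at h
          rcases h with rfl | rfl
          · by_cases h0 : a.natDegree = 0
            · left
              rw [eq_C_of_natDegree_eq_zero h0, derivative_C]
            · exact Or.inr ⟨natDegree_derivative_lt h0, natDegree_derivative_lt h0⟩
          · rcases eraseLead_natDegree_lt_or_eraseLead_eq_zero a with h5 | h5
            · exact Or.inr ⟨h5, h5⟩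
            · exact Or.inl h5
        · exact absurd h (Finset.notMem_empty _)
      · rw [Finset.mem_singleton.1 h]
        exact hR1 a b) S
  refine ⟨T, h2, h3, fun a ha => h4 a ha a ha ?_, fun a ha => h4 a ha a ha ?_,
    fun a ha b hb hb1 hba => ?_⟩
  · refine Finset.mem_union_left _ ?_
    rw [if_pos rfl]
    exact Finset.mem_insert_self _ _
  · refine Finset.mem_union_left _ ?_
    rw [if_pos rfl]
    exact Finset.mem_insert_of_mem (Finset.mem_singleton_self _)
  · obtain ⟨N, s, h5, h6⟩ := hR2 a b hb1 hba
    exact ⟨N, s, R a b, h4 a ha b hb (Finset.mem_union_right _ (Finset.mem_singleton_self _)),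
      h5, h6⟩

end Pool.Agent.PWQ
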