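import Pool.Agent.PWQ.PL

/-!
# PWQ, module EXT: one more polynomial (helper15)
-/

set_option autoImplicit false

open Polynomial Set Filter

namespace Pool.Agent.PWQ

/-- the sign -/
noncomputable abbrev sg (x : ℝ) : SignType := SignType.sign x

theorem sg_eq_zero {x : ℝ} : sg x = 0 ↔ x = 0 := sign_eq_zero_iff

theorem sg_neg (x : ℝ) : sg (-x) = -sg x := Left.sign_neg x

theorem sg_pos {x : ℝ} (h : 0 < x) : sg x = 1 := sign_pos h

theorem sg_neg' {x : ℝ} (h : x < 0) : sg x = -1 := sign_neg h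

theorem sg_eq_one {x : ℝ} : sg x = 1 ↔ 0 < x := sign_eq_one_iff

theorem sg_eq_neg_one {x : ℝ} : sg x = -1 ↔ x < 0 := sign_eq_neg_one_iff

/-- increasing functions with the same zeros -/
theorem sg_mono {f g : ℝ → ℝ} {a b : ℝ} (hg : StrictMonoOn g (Icc a b))
    (hfc : ContinuousOn f (Icc a b)) (ha : sg (f a) = sg (g a)) (hb : sg (f b) = sg (g b))
    (h0 : ∀ r ∈ Ioo a b, f r = 0 → g r = 0) : ∀ t ∈ Ioo a b, sg (f t) = sg (g t) := by
  intro t ht
  have hab : a < b := ht.1.trans ht.2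
  have hta : t ∈ Icc a b := ⟨ht.1.le, ht.2.le⟩
  have haa : a ∈ Icc a b := ⟨le_rfl, hab.le⟩
  have hbb : b ∈ Icc a b := ⟨hab.le, le_rfl⟩
  rcases lt_trichotomy (f t) 0 with h | h | h
  · rw [sg_neg' h, eq_comm, sg_eq_neg_one]
    rcases le_or_gt (f b) 0 with h1 | h1
    · have h2 : g b ≤ 0 := by
        rcases h1.eq_or_lt with h3 | h3
        · rw [h3] at hb
          have : sg (g b) = 0 := by rw [← hb]; exact sg_eq_zero.2 rfl
          exact (sg_eq_zero.1 this).le
        · rw [sg_neg' h3] at hb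
          exact (sg_eq_neg_one.1 hb.symm).le
      exact (hg hta hbb ht.2).trans_le h2
    · obtain ⟨r, hr, hr0⟩ := intermediate_value_Icc ht.2.le
        (hfc.mono (Icc_subset_Icc_left ht.1.le)) (show (0 : ℝ) ∈ Icc (f t) (f b) from ⟨h.le, h1.le⟩)
      have h2 : t < r := lt_of_le_of_ne hr.1 fun e => by rw [e, hr0] at h; exact lt_irrefl _ h
      have h3 : r < b := lt_of_le_of_ne hr.2 fun e => by rw [← e, hr0] at h1; exact lt_irrefl _ h1
      rw [← h0 r ⟨ht.1.trans h2, h3⟩ hr0]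
      exact hg hta ⟨(ht.1.trans h2).le, hr.2⟩ h2
  · rw [h, h0 t ht h]
  · rw [sg_pos h, eq_comm, sg_eq_one]
    rcases le_or_gt 0 (f a) with h1 | h1
    · have h2 : 0 ≤ g a := by
        rcases h1.eq_or_lt with h3 | h3
        · rw [← h3] at ha
          have : sg (g a) = 0 := by rw [← ha]; exact sg_eq_zero.2 rfl
          exact (sg_eq_zero.1 this).ge
        · rw [sg_pos h3] at ha
          exact (sg_eq_one.1 ha.symm).le
      exact h2.trans_lt (hg haa hta ht.1)
    · obtain ⟨r, hr, hr0⟩ := intermediate_value_Icc ht.1.le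
        (hfc.mono (Icc_subset_Icc_right ht.2.le)) (show (0 : ℝ) ∈ Icc (f a) (f t) from ⟨h1.le, h.le⟩)
      have h2 : r < t := lt_of_le_of_ne hr.2 fun e => by rw [← e, hr0] at h; exact lt_irrefl _ h
      have h3 : a < r := lt_of_le_of_ne hr.1 fun e => by rw [e, hr0] at h1; exact lt_irrefl _ h1
      rw [← h0 r ⟨h3, h2.trans ht.2⟩ hr0]
      exact hg ⟨hr.1, (h2.trans ht.2).le⟩ hta h2

/-- a polynomial without zeros in an interval has a constant sign there -/
theorem sg_const {P : ℝ[X]} {a b : ℝ} (h : ∀ t ∈ Ioo a b, P.eval t ≠ 0) {s t : ℝ} (hs : s ∈ Ioo a b)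
    (ht : t ∈ Ioo a b) : sg (P.eval s) = sg (P.eval t) := by
  have key : ∀ {s t : ℝ}, s ∈ Ioo a b → t ∈ Ioo a b → s ≤ t → sg (P.eval s) = sg (P.eval t) := by
    intro s t hs ht hst
    have hc : ContinuousOn (fun t => P.eval t) (Icc s t) := P.continuous.continuousOn
    have hz : ∀ r ∈ Icc s t, P.eval r ≠ 0 := fun r hr => h r ⟨hs.1.trans_le hr.1, hr.2.trans_lt ht.2⟩
    rcases lt_trichotomy (P.eval s) 0 with h1 | h1 | h1
    · rcases lt_trichotomy (P.eval t) 0 with h2 | h2 | h2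
      · rw [sg_neg' h1, sg_neg' h2]
      · exact absurd h2 (h t ht)
      · obtain ⟨r, hr, hr0⟩ := intermediate_value_Icc hst hc
          (show (0 : ℝ) ∈ Icc (P.eval s) (P.eval t) from ⟨h1.le, h2.le⟩)
        exact absurd hr0 (hz r hr)
    · exact absurd h1 (h s hs)
    · rcases lt_trichotomy (P.eval t) 0 with h2 | h2 | h2
      · obtain ⟨r, hr, hr0⟩ := intermediate_value_Icc' hst hc
          (show (0 : ℝ) ∈ Icc (P.eval t) (P.eval s) from ⟨h2.le, h1.le⟩)
        exact absurd hr0 (hz r hr)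
      · exact absurd h2 (h t ht)
      · rw [sg_pos h1, sg_pos h2]
  rcases le_total s t with hst | hst
  · exact key hs ht hst
  · exact (key ht hs hst).symm

section

variable {ι : Type} {p q : ι → ℝ[X]} {P Q : ℝ[X]}

/-- the same signs along `φ` -/
def Mat (p q : ι → ℝ[X]) (φ : ℝ ≃o ℝ) : Prop := ∀ i t, sg ((p i).eval t) = sg ((q i).eval (φ t))

/-- the zeros of the nonzero polynomials of the family -/
def Zs (p : ι → ℝ[X]) : Set ℝ := {t | ∃ i, p i ≠ 0 ∧ (p i).eval t = 0}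

theorem Zs_finite [Finite ι] : (Zs p).Finite := by
  have h1 : Zs p ⊆ ⋃ i, {t | t ∈ (p i).roots.toFinset} := by
    rintro t ⟨i, hi, ht⟩
    refine mem_iUnion.2 ⟨i, ?_⟩
    simp only [mem_ofPred_eq, Multiset.mem_toFinset]
    exact (mem_roots hi).2 ht
  exact (finite_iUnion fun i => Finset.finite_toSet _).subset h1

/-- points on both sides of `t`, not separated from `t` by zeros, at which the signs of `P` and `Q` agree -/
theorem exists_wit [Finite ι] {φ : ℝ ≃o ℝ}
    (hz : ∀ t ∈ Zs p, sg (P.eval t) = sg (Q.eval (φ t)))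
    (ht : ∃ σ, (∀ᶠ t in atTop, sg (P.eval t) = σ) ∧ ∀ᶠ t in atTop, sg (Q.eval t) = σ)
    (hb : ∃ σ, (∀ᶠ t in atBot, sg (P.eval t) = σ) ∧ ∀ᶠ t in atBot, sg (Q.eval t) = σ) (t : ℝ)
    (hZ : t ∉ Zs p) : ∃ a b, a < t ∧ t < b ∧ sg (P.eval a) = sg (Q.eval (φ a)) ∧
      sg (P.eval b) = sg (Q.eval (φ b)) ∧ ∀ s ∈ Ioo a b, s ∉ Zs p := by
  have hR : ∃ b, t < b ∧ sg (P.eval b) = sg (Q.eval (φ b)) ∧ ∀ s, t ≤ s → s < b → s ∉ Zs p := by
    by_cases h : (Zs p ∩ Ioi t).Nonempty
    · obtain ⟨b, hb1, hb2⟩ := (Zs_finite.inter_of_left (Ioi t) : (Zs p ∩ Ioi t).Finite).exists_minimal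
        h
      refine ⟨b, hb1.2, hz b hb1.1, fun s hs1 hs2 hs3 => ?_⟩
      rcases hs1.eq_or_lt with rfl | hs1
      · exact hZ hs3
      · exact absurd (hb2 ⟨hs3, hs1⟩ hs2.le) (not_le.2 hs2)
    · obtain ⟨σ, h1, h2⟩ := ht
      have h3 : ∀ᶠ s in atTop, sg (Q.eval (φ s)) = σ := φ.tendsto_atTop.eventually h2
      obtain ⟨b, hb1, hb2, hb3⟩ := (h1.and (h3.and (eventually_gt_atTop t))).exists
      exact ⟨b, hb3, hb1.trans hb2.symm, fun s hs1 hs2 hs3 => by
        rcases hs1.eq_or_lt with rfl | hs1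
        · exact hZ hs3
        · exact h ⟨s, hs3, hs1⟩⟩
  have hL : ∃ a, a < t ∧ sg (P.eval a) = sg (Q.eval (φ a)) ∧ ∀ s, a < s → s ≤ t → s ∉ Zs p := by
    by_cases h : (Zs p ∩ Iio t).Nonempty
    · obtain ⟨a, ha1, ha2⟩ := (Zs_finite.inter_of_left (Iio t) : (Zs p ∩ Iio t).Finite).exists_maximal
        h
      refine ⟨a, ha1.2, hz a ha1.1, fun s hs1 hs2 hs3 => ?_⟩
      rcases hs2.eq_or_lt with rfl | hs2
      · exact hZ hs3
      · exact absurd (ha2 ⟨hs3, hs2⟩ hs1.le) (not_le.2 hs1)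
    · obtain ⟨σ, h1, h2⟩ := hb
      have h3 : ∀ᶠ s in atBot, sg (Q.eval (φ s)) = σ := φ.tendsto_atBot.eventually h2
      obtain ⟨a, ha1, ha2, ha3⟩ := (h1.and (h3.and (eventually_lt_atBot t))).exists
      exact ⟨a, ha3, ha1.trans ha2.symm, fun s hs1 hs2 hs3 => by
        rcases hs2.eq_or_lt with rfl | hs2
        · exact hZ hs3
        · exact h ⟨s, hs3, hs2⟩⟩
  obtain ⟨b, hb1, hb2, hb3⟩ := hR
  obtain ⟨a, ha1, ha2, ha3⟩ := hL
  refine ⟨a, b, ha1, hb1, ha2, hb2, fun s hs => ?_⟩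
  rcases le_total s t with h | h
  · exact ha3 s hs.1 h
  · exact hb3 s h hs.2

/-- on such an interval `P` and `Q ∘ φ` are strictly monotone in the same direction -/
theorem exists_dir {φ : ℝ ≃o ℝ} (hm : Mat p q φ) (i : ι) (hp : p i = derivative P)
    (hq : q i = derivative Q) (h0 : derivative P ≠ 0) {a b : ℝ} (hab : a < b)
    (hZ : ∀ s ∈ Ioo a b, s ∉ Zs p) :
    (StrictMonoOn (fun t => P.eval t) (Icc a b) ∧ StrictMonoOn (fun t => Q.eval (φ t)) (Icc a b)) ∨
    (StrictMonoOn (fun t => -P.eval t) (Icc a b) ∧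
      StrictMonoOn (fun t => -Q.eval (φ t)) (Icc a b)) := by
  have h1 : ∀ t ∈ Ioo a b, (derivative P).eval t ≠ 0 := by
    intro t ht h
    exact hZ t ht ⟨i, by rwa [hp], by rwa [hp]⟩
  have hmid : (a + b) / 2 ∈ Ioo a b := ⟨by linarith, by linarith⟩
  have hφ : ∀ y ∈ Ioo (φ a) (φ b), ∃ t ∈ Ioo a b, φ t = y := by
    intro y hy
    refine ⟨φ.symm y, ⟨?_, ?_⟩, φ.apply_symm_apply y⟩
    · rw [← φ.lt_iff_lt, φ.apply_symm_apply]
      exact hy.1
    · rw [← φ.lt_iff_lt, φ.apply_symm_apply]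
      exact hy.2
  have hQs : ∀ t ∈ Ioo a b, sg ((derivative Q).eval (φ t)) = sg ((derivative P).eval t) := by
    intro t ht
    rw [← hp, ← hq]
    exact (hm i t).symm
  have hcomp : ∀ f : ℝ → ℝ, StrictMonoOn f (Icc (φ a) (φ b)) →
      StrictMonoOn (fun t => f (φ t)) (Icc a b) := by
    intro f hf s hs t ht hst
    exact hf ⟨φ.monotone hs.1, φ.monotone hs.2⟩ ⟨φ.monotone ht.1, φ.monotone ht.2⟩
      (φ.strictMono hst)
  rcases lt_or_gt_of_ne (h1 _ hmid) with h2 | h2
  · right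
    have h3 : ∀ t ∈ Ioo a b, (derivative P).eval t < 0 := by
      intro t ht
      have := sg_const h1 ht hmid
      rw [sg_neg' h2] at this
      exact sg_eq_neg_one.1 this
    constructor
    · refine strictMonoOn_of_deriv_pos (convex_Icc a b) P.continuous.neg.continuousOn fun t ht => ?_
      rw [interior_Icc] at ht
      have h4 : HasDerivAt (fun t => -P.eval t) (-(derivative P).eval t) t := (P.hasDerivAt t).neg
      rw [h4.deriv]
      linarith [h3 t ht]
    · refine hcomp (fun y => -Q.eval y) (strictMonoOn_of_deriv_pos (convex_Icc _ _)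
        Q.continuous.neg.continuousOn fun y hy => ?_)
      rw [interior_Icc] at hy
      obtain ⟨t, ht, rfl⟩ := hφ y hy
      have h4 : HasDerivAt (fun t => -Q.eval t) (-(derivative Q).eval (φ t)) (φ t) :=
        (Q.hasDerivAt _).neg
      rw [h4.deriv]
      have h5 := hQs t ht
      rw [sg_neg' (h3 t ht)] at h5
      linarith [sg_eq_neg_one.1 h5]
  · left
    have h3 : ∀ t ∈ Ioo a b, 0 < (derivative P).eval t := by
      intro t ht
      have := sg_const h1 ht hmid
      rw [sg_pos h2] at this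
      exact sg_eq_one.1 this
    constructor
    · refine strictMonoOn_of_deriv_pos (convex_Icc a b) P.continuous.continuousOn fun t ht => ?_
      rw [interior_Icc] at ht
      rw [P.deriv]
      exact h3 t ht
    · refine hcomp (fun y => Q.eval y) (strictMonoOn_of_deriv_pos (convex_Icc _ _)
        Q.continuous.continuousOn fun y hy => ?_)
      rw [interior_Icc] at hy
      obtain ⟨t, ht, rfl⟩ := hφ y hy
      rw [Q.deriv]
      have h5 := hQs t ht
      rw [sg_pos (h3 t ht)] at h5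
      exact sg_eq_one.1 h5

end

theorem sg_mul_eq {c x y : ℝ} (hc : c ≠ 0) : sg (c * x) = sg (c * y) ↔ sg x = sg y := by
  have h1 : sg c ≠ 0 := fun h => hc (sg_eq_zero.1 h)
  rw [show sg (c * x) = sg c * sg x from sign_mul _ _, show sg (c * y) = sg c * sg y from sign_mul _ _]
  constructor
  · intro h
    generalize sg c = u at h h1
    generalize sg x = v at h
    generalize sg y = w at h
    revert u v w
    decide
  · intro h
    rw [h]

section

variable {ι : Type} {p q : ι → ℝ[X]} {P Q : ℝ[X]}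

theorem exists_dir' {φ : ℝ ≃o ℝ} (hm : Mat p q φ) (i : ι) (hp : p i = derivative P)
    (hq : q i = derivative Q) (h0 : derivative P ≠ 0) {a b : ℝ} (hab : a < b)
    (hZ : ∀ s ∈ Ioo a b, s ∉ Zs p) :
    ∃ c : ℝ, c ≠ 0 ∧ StrictMonoOn (fun t => c * P.eval t) (Icc a b) ∧
      StrictMonoOn (fun t => c * Q.eval (φ t)) (Icc a b) := by
  rcases exists_dir hm i hp hq h0 hab hZ with ⟨h1, h2⟩ | ⟨h1, h2⟩
  · exact ⟨1, one_ne_zero, by simpa using h1, by simpa using h2⟩
  · exact ⟨-1, neg_ne_zero.2 one_ne_zero, by simpa using h1, by simpa using h2⟩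

/-- a matching stays a matching when one moves inside a gap -/
theorem mat_move {φ ψ : ℝ ≃o ℝ} (hm : Mat p q φ) {a b : ℝ} (hZ : ∀ s ∈ Ioo a b, s ∉ Zs p)
    (hψ : ∀ t, t ≤ φ a ∨ φ b ≤ t → ψ t = t) : Mat p q (φ.trans ψ) := by
  intro j t
  rw [OrderIso.trans_apply]
  by_cases ht : t ∈ Ioo a b
  · by_cases hj : p j = 0
    · have h1 : ∀ s, (q j).eval s = 0 := by
        intro s
        have h2 := hm j (φ.symm s)
        rw [hj, eval_zero, φ.apply_symm_apply] at h2
        exact sg_eq_zero.1 (h2.symm.trans (sg_eq_zero.2 rfl))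
      rw [hj, eval_zero, h1]
    · have h1 : ∀ y ∈ Ioo (φ a) (φ b), (q j).eval y ≠ 0 := by
        intro y hy h
        have h2 := hm j (φ.symm y)
        rw [φ.apply_symm_apply, h] at h2
        have h3 : (p j).eval (φ.symm y) = 0 := sg_eq_zero.1 (h2.trans (sg_eq_zero.2 rfl))
        refine hZ (φ.symm y) ⟨?_, ?_⟩ ⟨j, hj, h3⟩
        · rw [← φ.lt_iff_lt, φ.apply_symm_apply]
          exact hy.1
        · rw [← φ.lt_iff_lt, φ.apply_symm_apply]
          exact hy.2
      have h2 : φ t ∈ Ioo (φ a) (φ b) := ⟨φ.strictMono ht.1, φ.strictMono ht.2⟩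
      have h3 : ψ (φ t) ∈ Ioo (φ a) (φ b) := by
        constructor
        · rw [← hψ (φ a) (Or.inl le_rfl)]
          exact ψ.strictMono h2.1
        · rw [← hψ (φ b) (Or.inr le_rfl)]
          exact ψ.strictMono h2.2
      rw [hm j t]
      exact sg_const h1 h2 h3
  · rw [hψ (φ t), hm j t]
    rw [mem_Ioo, not_and_or, not_lt, not_lt] at ht
    exact ht.imp (fun h => φ.monotone h) fun h => φ.monotone h

/-- **EXT**: one more polynomial -/
theorem exists_ext [Finite ι] {φ : ℝ ≃o ℝ} (hm : Mat p q φ) (i : ι) (hp : p i = derivative P)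
    (hq : q i = derivative Q) (hz : ∀ t ∈ Zs p, sg (P.eval t) = sg (Q.eval (φ t)))
    (ht : ∃ σ, (∀ᶠ t in atTop, sg (P.eval t) = σ) ∧ ∀ᶠ t in atTop, sg (Q.eval t) = σ)
    (hb : ∃ σ, (∀ᶠ t in atBot, sg (P.eval t) = σ) ∧ ∀ᶠ t in atBot, sg (Q.eval t) = σ) :
    ∃ φ' : ℝ ≃o ℝ, Mat p q φ' ∧ ∀ t, sg (P.eval t) = sg (Q.eval (φ' t)) := by
  by_cases h0 : derivative P = 0
  · have h1 : derivative Q = 0 := by
      rw [← hq]
      refine Polynomial.funext fun s => ?_
      rw [eval_zero]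
      have h2 := hm i (φ.symm s)
      rw [hp, h0, eval_zero, φ.apply_symm_apply] at h2
      exact sg_eq_zero.1 (h2.symm.trans (sg_eq_zero.2 rfl))
    obtain ⟨σ, h2, h3⟩ := ht
    rw [eq_C_of_derivative_eq_zero h0] at h2 ⊢
    rw [eq_C_of_derivative_eq_zero h1] at h3 ⊢
    simp only [eval_C] at h2 h3 ⊢
    obtain ⟨_, h4, h5⟩ := (h2.and h3).exists
    exact ⟨φ, hm, fun t => h4.trans h5.symm⟩
  have hP0 : P ≠ 0 := by
    rintro rfl
    exact h0 derivative_zero
  have key : ∀ S : Finset ℝ, (∀ r ∈ S, P.eval r = 0 ∧ r ∉ Zs p) → ∃ φ' : ℝ ≃o ℝ, Mat p q φ' ∧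
      (∀ t ∈ Zs p, sg (P.eval t) = sg (Q.eval (φ' t))) ∧ ∀ r ∈ S, Q.eval (φ' r) = 0 := by
    intro S
    induction S using Finset.induction_on with
    | empty => exact fun _ => ⟨φ, hm, hz, fun r hr => absurd hr (Finset.notMem_empty r)⟩
    | insert r S hrS ih =>
      intro hS
      obtain ⟨φ', hm', hz', hS'⟩ := ih fun r' hr' => hS r' (Finset.mem_insert_of_mem hr')
      obtain ⟨hr0, hrZ⟩ := hS r (Finset.mem_insert_self _ _)
      obtain ⟨a, b, har, hrb, ha, hb', hZ⟩ := exists_wit hz' ht hb r hrZ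
      have hab := har.trans hrb
      have haa : a ∈ Icc a b := ⟨le_rfl, hab.le⟩
      have hbb : b ∈ Icc a b := ⟨hab.le, le_rfl⟩
      have hrr : r ∈ Icc a b := ⟨har.le, hrb.le⟩
      obtain ⟨c, hc, hPm, hQm⟩ := exists_dir' hm' i hp hq h0 hab hZ
      have h1 : c * P.eval a < 0 := by
        have := hPm haa hrr har
        simpa only [hr0, mul_zero] using this
      have h2 : 0 < c * P.eval b := by
        have := hPm hrr hbb hrb
        simpa only [hr0, mul_zero] using this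
      have h3 : c * Q.eval (φ' a) < 0 := by
        have := (sg_mul_eq hc).2 ha
        rw [sg_neg' h1] at this
        exact sg_eq_neg_one.1 this.symm
      have h4 : 0 < c * Q.eval (φ' b) := by
        have := (sg_mul_eq hc).2 hb'
        rw [sg_pos h2] at this
        exact sg_eq_one.1 this.symm
      obtain ⟨s, hs, hs0⟩ := intermediate_value_Ioo (f := fun y => c * Q.eval y)
        (φ'.monotone hab.le) (by fun_prop) (show (0 : ℝ) ∈ Ioo _ _ from ⟨h3, h4⟩)
      have hs1 : Q.eval s = 0 := (mul_eq_zero.1 hs0).resolve_left hc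
      obtain ⟨ψ, hψ1, hψ2⟩ := exists_move (φ'.strictMono har) (φ'.strictMono hrb) hs.1 hs.2
      refine ⟨φ'.trans ψ, mat_move hm' hZ hψ2, fun t htZ => ?_, fun r' hr' => ?_⟩
      · have h5 : t ≤ a ∨ b ≤ t := by
          by_contra h
          rw [not_or, not_le, not_le] at h
          exact hZ t h htZ
        rw [OrderIso.trans_apply, hψ2 _ (h5.imp (fun h => φ'.monotone h) fun h => φ'.monotone h)]
        exact hz' t htZ
      · rcases Finset.mem_insert.1 hr' with rfl | hr''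
        · rw [OrderIso.trans_apply, hψ1, hs1]
        · have h5 : r' ≤ a ∨ b ≤ r' := by
            by_contra h
            rw [not_or, not_le, not_le] at h
            have h6 : r' = r := hPm.injOn ⟨h.1.le, h.2.le⟩ hrr
              (by simp only [hr0, (hS r' hr').1])
            exact hrS (h6 ▸ hr'')
          rw [OrderIso.trans_apply, hψ2 _ (h5.imp (fun h => φ'.monotone h) fun h => φ'.monotone h)]
          exact hS' r' hr''
  classical
  obtain ⟨φ', hm', hz', hS'⟩ := key (P.roots.toFinset.filter fun r => r ∉ Zs p) fun r hr => by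
    rw [Finset.mem_filter, Multiset.mem_toFinset] at hr
    exact ⟨(mem_roots hP0).1 hr.1, hr.2⟩
  refine ⟨φ', hm', fun t => ?_⟩
  by_cases htZ : t ∈ Zs p
  · exact hz' t htZ
  obtain ⟨a, b, hat, htb, ha, hb', hZ⟩ := exists_wit hz' ht hb t htZ
  obtain ⟨c, hc, -, hQm⟩ := exists_dir' hm' i hp hq h0 (hat.trans htb) hZ
  have := sg_mono (f := fun t => c * P.eval t) hQm (by fun_prop) ((sg_mul_eq hc).2 ha)
    ((sg_mul_eq hc).2 hb') (fun r hr hr0 => ?_) t ⟨hat, htb⟩
  · exact (sg_mul_eq hc).1 this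
  · have h1 : P.eval r = 0 := (mul_eq_zero.1 hr0).resolve_left hc
    have h2 : r ∈ P.roots.toFinset.filter fun r => r ∉ Zs p := by
      rw [Finset.mem_filter, Multiset.mem_toFinset]
      exact ⟨(mem_roots hP0).2 h1, hZ r hr⟩
    show c * Q.eval (φ' r) = 0
    rw [hS' r h2, mul_zero]

end

end Pool.Agent.PWQ
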