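import Pool.Agent.PWQ.EXT
import Pool.Agent.PWQ.CLO

/-!
# PWQ, module KEY: the matching over a closed set of polynomials (helper15)
-/

set_option autoImplicit false

open Polynomial Set Filter

namespace Pool.Agent.PWQ

theorem ev_top {P : ℝ[X]} (h : P.natDegree ≠ 0) :
    ∀ᶠ t in atTop, sg (P.eval t) = sg P.leadingCoeff := by
  have hd : 0 < P.degree := natDegree_pos_iff_degree_pos.1 (Nat.pos_of_ne_zero h)
  rcases lt_trichotomy P.leadingCoeff 0 with h1 | h1 | h1
  · filter_upwards [(P.tendsto_atBot_of_leadingCoeff_nonpos hd h1.le).eventually_lt_atBot 0]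
      with t ht
    rw [sg_neg' ht, sg_neg' h1]
  · rw [leadingCoeff_eq_zero] at h1
    rw [h1, natDegree_zero] at h
    exact absurd rfl h
  · filter_upwards [(P.tendsto_atTop_of_leadingCoeff_nonneg hd h1.le).eventually_gt_atTop 0]
      with t ht
    rw [sg_pos ht, sg_pos h1]

theorem ev_bot {P : ℝ[X]} (h : P.natDegree ≠ 0) :
    ∀ᶠ t in atBot, sg (P.eval t) = sg (P.leadingCoeff * (-1) ^ P.natDegree) := by
  have hX : (-X : ℝ[X]).natDegree = 1 := by rw [natDegree_neg, natDegree_X]
  have hX' : (-X : ℝ[X]).leadingCoeff = -1 := by rw [leadingCoeff_neg, leadingCoeff_X]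
  have h1 : (P.comp (-X)).natDegree ≠ 0 := by
    rw [natDegree_comp, hX, mul_one]
    exact h
  have h2 := tendsto_neg_atBot_atTop.eventually (ev_top h1)
  filter_upwards [h2] with t ht
  rw [leadingCoeff_comp (by rw [hX]; exact one_ne_zero), hX', eval_comp, eval_neg, eval_X,
    neg_neg] at ht
  exact ht

variable {A : Type} [CommRing A]

/-- the polynomial with its vanishing leading terms removed -/
theorem exists_eff {C : Finset A[X]} (h0 : 0 ∈ C) (he : ∀ a ∈ C, eraseLead a ∈ C) (f g : A →+* ℝ)
    (hs : ∀ a ∈ C, sg (f a.leadingCoeff) = sg (g a.leadingCoeff)) (a : A[X]) (ha : a ∈ C) :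
    ∃ b ∈ C, b.natDegree ≤ a.natDegree ∧ b.map f = a.map f ∧ b.map g = a.map g ∧
      (b = 0 ∨ f b.leadingCoeff ≠ 0) := by
  obtain ⟨n, hn⟩ : ∃ n, a.support.card ≤ n := ⟨_, le_rfl⟩
  induction n using Nat.strong_induction_on generalizing a with
  | _ n ih =>
    by_cases h1 : a = 0
    · exact ⟨0, h0, by simp, by rw [h1], by rw [h1], Or.inl rfl⟩
    by_cases h2 : f a.leadingCoeff = 0
    · have h3 : g a.leadingCoeff = 0 := by
        have := hs a ha
        rw [sg_eq_zero.2 h2] at this
        exact sg_eq_zero.1 this.symm
      obtain ⟨b, hb, hb1, hb2, hb3, hb4⟩ := ih a.eraseLead.support.card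
        ((eraseLead_support_card_lt h1).trans_le hn) a.eraseLead (he a ha) le_rfl
      have h4 : ∀ u : A →+* ℝ, u a.leadingCoeff = 0 → a.eraseLead.map u = a.map u := by
        intro u hu
        conv_rhs => rw [← eraseLead_add_C_mul_X_pow a]
        rw [Polynomial.map_add, Polynomial.map_mul, map_C, hu, C_0, zero_mul, add_zero]
      refine ⟨b, hb, hb1.trans ((eraseLead_natDegree_le a).trans (Nat.sub_le _ _)), ?_, ?_, hb4⟩
      · rw [hb2, h4 f h2]
      · rw [hb3, h4 g h3]
    · exact ⟨a, ha, le_rfl, rfl, rfl, Or.inr h2⟩

/-- **KEY** -/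
theorem exists_phi (C : Finset A[X]) (h0 : 0 ∈ C) (hd : ∀ a ∈ C, derivative a ∈ C)
    (he : ∀ a ∈ C, eraseLead a ∈ C)
    (hr : ∀ a ∈ C, ∀ b ∈ C, 1 ≤ b.natDegree → b.natDegree ≤ a.natDegree →
      ∃ N : ℕ, ∃ s, ∃ r ∈ C, Polynomial.C b.leadingCoeff ^ (2 * N) * a = s * b + r ∧
        r.natDegree < b.natDegree) (f g : A →+* ℝ)
    (hs : ∀ a ∈ C, sg (f a.leadingCoeff) = sg (g a.leadingCoeff)) :
    ∃ φ : ℝ ≃o ℝ, ∀ a ∈ C, ∀ t, sg ((a.map f).eval t) = sg ((a.map g).eval (φ t)) := by
  classical
  have hconst : ∀ a : A[X], a.natDegree = 0 → ∀ (u : A →+* ℝ) (t : ℝ),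
      (a.map u).eval t = u a.leadingCoeff := by
    intro a ha u t
    rw [leadingCoeff, ha]
    conv_lhs => rw [eq_C_of_natDegree_eq_zero ha]
    rw [map_C, eval_C]
  have key : ∀ k : ℕ, ∃ φ : ℝ ≃o ℝ, ∀ a ∈ C, a.natDegree ≤ k →
      ∀ t, sg ((a.map f).eval t) = sg ((a.map g).eval (φ t)) := by
    intro k
    induction k with
    | zero =>
      refine ⟨OrderIso.refl ℝ, fun a ha hak t => ?_⟩
      rw [hconst a (Nat.le_zero.1 hak), hconst a (Nat.le_zero.1 hak)]
      exact hs a ha
    | succ k ih =>
      have step : ∀ D : Finset A[X], (∀ a ∈ D, a ∈ C ∧ a.natDegree = k + 1) →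
          ∃ φ : ℝ ≃o ℝ, ∀ a ∈ C, (a.natDegree ≤ k ∨ a ∈ D) →
            ∀ t, sg ((a.map f).eval t) = sg ((a.map g).eval (φ t)) := by
        intro D
        induction D using Finset.induction_on with
        | empty =>
          intro _
          obtain ⟨φ, hφ⟩ := ih
          exact ⟨φ, fun a ha h => hφ a ha (h.resolve_right (Finset.notMem_empty _))⟩
        | insert p D _ ihD =>
          intro hD
          obtain ⟨φ, hφ⟩ := ihD fun a ha => hD a (Finset.mem_insert_of_mem ha)
          obtain ⟨hpC, hpk⟩ := hD p (Finset.mem_insert_self _ _)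
          by_cases hf : f p.leadingCoeff = 0
          · have hg : g p.leadingCoeff = 0 := by
              have := hs p hpC
              rw [sg_eq_zero.2 hf] at this
              exact sg_eq_zero.1 this.symm
            refine ⟨φ, fun a ha h t => ?_⟩
            by_cases hap : a = p
            · have h4 : ∀ u : A →+* ℝ, u p.leadingCoeff = 0 → p.map u = p.eraseLead.map u := by
                intro u hu
                conv_lhs => rw [← eraseLead_add_C_mul_X_pow p]
                rw [Polynomial.map_add, Polynomial.map_mul, map_C, hu, C_0, zero_mul, add_zero]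
              rw [hap, h4 f hf, h4 g hg]
              refine hφ _ (he p hpC) (Or.inl ?_) t
              have := eraseLead_natDegree_le p
              omega
            · refine hφ a ha (h.imp id fun h => (Finset.mem_insert.1 h).resolve_left hap) t
          · have hsg := hs p hpC
            have hg : g p.leadingCoeff ≠ 0 := by
              intro h
              rw [sg_eq_zero.2 h] at hsg
              exact hf (sg_eq_zero.1 hsg)
            have hPd : (p.map f).natDegree = k + 1 := by
              rw [natDegree_map_of_leadingCoeff_ne_zero f hf, hpk]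
            have hQd : (p.map g).natDegree = k + 1 := by
              rw [natDegree_map_of_leadingCoeff_ne_zero g hg, hpk]
            have hPl : (p.map f).leadingCoeff = f p.leadingCoeff :=
              leadingCoeff_map_of_leadingCoeff_ne_zero f hf
            have hQl : (p.map g).leadingCoeff = g p.leadingCoeff :=
              leadingCoeff_map_of_leadingCoeff_ne_zero g hg
            let I : Type := {a : A[X] // a ∈ C ∧ (a.natDegree ≤ k ∨ a ∈ D)}
            have hI : Finite I := (C.finite_toSet.subset fun a ha => ha.1 :
              {a : A[X] | a ∈ C ∧ (a.natDegree ≤ k ∨ a ∈ D)}.Finite).to_subtype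
            have hder : derivative p ∈ C ∧ ((derivative p).natDegree ≤ k ∨ derivative p ∈ D) := by
              refine ⟨hd p hpC, Or.inl ?_⟩
              have := natDegree_derivative_lt (p := p) (by omega)
              omega
            obtain ⟨φ', h1, h2⟩ := exists_ext (ι := I) (p := fun a => a.1.map f)
              (q := fun a => a.1.map g) (P := p.map f) (Q := p.map g) (φ := φ)
              (fun a t => hφ a.1 a.2.1 a.2.2 t) ⟨derivative p, hder⟩
              (derivative_map p f).symm (derivative_map p g).symm (by
                rintro t ⟨⟨q, hqC, hqk⟩, hq0, hqt⟩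
                change q.map f ≠ 0 at hq0
                change (q.map f).eval t = 0 at hqt
                have hqt' : (q.map g).eval (φ t) = 0 := by
                  have := hφ q hqC hqk t
                  rw [sg_eq_zero.2 hqt] at this
                  exact sg_eq_zero.1 this.symm
                obtain ⟨b, hbC, hbd, hbf, hbg, hb⟩ := exists_eff h0 he f g hs q hqC
                have hb0 : b ≠ 0 := by
                  rintro rfl
                  rw [← hbf, Polynomial.map_zero] at hq0
                  exact hq0 rfl
                have hbl := hb.resolve_left hb0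
                have hbl' : g b.leadingCoeff ≠ 0 := by
                  intro h
                  have := hs b hbC
                  rw [sg_eq_zero.2 h] at this
                  exact hbl (sg_eq_zero.1 this)
                have hb1 : 1 ≤ b.natDegree := by
                  by_contra hb1
                  have hb2 : b.natDegree = 0 := by omega
                  rw [← hbf, hconst b hb2] at hqt
                  exact hbl hqt
                have hqd : q.natDegree ≤ k + 1 := by
                  rcases hqk with h | h
                  · omega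
                  · exact (hD q (Finset.mem_insert_of_mem h)).2.le
                obtain ⟨N, s, r, hrC, h3, h4⟩ := hr p hpC b hbC hb1 (by omega)
                have h5 : ∀ (u : A →+* ℝ) (w : ℝ), (b.map u).eval w = 0 → u b.leadingCoeff ≠ 0 →
                    sg ((p.map u).eval w) = sg ((r.map u).eval w) := by
                  intro u w hw hu
                  have h6 := congrArg (fun P => (P.map u).eval w) h3
                  simp only [Polynomial.map_mul, Polynomial.map_add, Polynomial.map_pow, map_C,
                    eval_mul, eval_add, eval_pow, eval_C, hw, mul_zero, zero_add] at h6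
                  rw [← h6]
                  have h7 : 0 < u b.leadingCoeff ^ (2 * N) := by
                    rw [pow_mul]
                    exact pow_pos (by positivity) _
                  rw [show sg (u b.leadingCoeff ^ (2 * N) * (p.map u).eval w) =
                    sg (u b.leadingCoeff ^ (2 * N)) * sg ((p.map u).eval w) from sign_mul _ _,
                    sg_pos h7, one_mul]
                rw [h5 f t (by rw [hbf, hqt]) hbl, h5 g (φ t) (by rw [hbg, hqt']) hbl']
                exact hφ r hrC (Or.inl (by omega)) t)
              ⟨sg (f p.leadingCoeff), by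
                have := ev_top (P := p.map f) (by omega)
                rwa [hPl] at this, by
                have := ev_top (P := p.map g) (by omega)
                rwa [hQl, ← hsg] at this⟩
              ⟨sg (f p.leadingCoeff * (-1) ^ (k + 1)), by
                have := ev_bot (P := p.map f) (by omega)
                rwa [hPl, hPd] at this, by
                have := ev_bot (P := p.map g) (by omega)
                rw [hQl, hQd] at this
                have h3 : sg (f p.leadingCoeff * (-1) ^ (k + 1)) =
                    sg (g p.leadingCoeff * (-1) ^ (k + 1)) := by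
                  rw [show sg (f p.leadingCoeff * (-1) ^ (k + 1)) =
                    sg (f p.leadingCoeff) * sg ((-1) ^ (k + 1)) from sign_mul _ _,
                    show sg (g p.leadingCoeff * (-1) ^ (k + 1)) =
                    sg (g p.leadingCoeff) * sg ((-1) ^ (k + 1)) from sign_mul _ _, hsg]
                rwa [h3]⟩
            refine ⟨φ', fun a ha h t => ?_⟩
            by_cases hap : a = p
            · rw [hap]
              exact h2 t
            · exact h1 ⟨a, ha, h.imp id fun h => (Finset.mem_insert.1 h).resolve_left hap⟩ t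
      obtain ⟨φ, hφ⟩ := step (C.filter fun a => a.natDegree = k + 1) fun a ha =>
        Finset.mem_filter.1 ha
      refine ⟨φ, fun a ha hak => hφ a ha ?_⟩
      rcases Nat.lt_or_ge k a.natDegree with h | h
      · exact Or.inr (Finset.mem_filter.2 ⟨ha, by omega⟩)
      · exact Or.inl h
  obtain ⟨φ, hφ⟩ := key (C.sup natDegree)
  exact ⟨φ, fun a ha => hφ a ha (Finset.le_sup ha)⟩

/-- **FIB**: the signs of finitely many elements of the base ring determine the sign pattern of
the fibre up to an order isomorphism -/
theorem exists_fib (S : Finset A[X]) : ∃ G : Finset A, ∀ f g : A →+* ℝ,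
    (∀ c ∈ G, sg (f c) = sg (g c)) → ∃ φ : ℝ ≃o ℝ, ∀ a ∈ S, ∀ t,
      sg ((a.map f).eval t) = sg ((a.map g).eval (φ t)) := by
  classical
  obtain ⟨T, h1, h2, h3, h4, h5⟩ := exists_clo S
  refine ⟨T.image leadingCoeff, fun f g h => ?_⟩
  obtain ⟨φ, hφ⟩ := exists_phi T h2 h3 h4 h5 f g fun a ha =>
    h _ (Finset.mem_image_of_mem _ ha)
  exact ⟨φ, fun a ha => hφ a (h1 ha)⟩

end Pool.Agent.PWQ
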