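import Mathlib

/-!
# PWQ, module PL: moving a point of the line inside an interval (helper15)
-/

set_option autoImplicit false

namespace Pool.Agent.PWQ

/-- the map with slope `m` on the right of `a` and slope `1` on the left -/
noncomputable def pv (a m : ℝ) (hm : 0 < m) : ℝ ≃o ℝ where
  toFun t := if t ≤ a then t else a + m * (t - a)
  invFun t := if t ≤ a then t else a + m⁻¹ * (t - a)
  left_inv := by
    intro t
    by_cases h : t ≤ a
    · simp [h]
    · have h1 : 0 < m * (t - a) := mul_pos hm (by linarith [not_le.1 h])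
      have h2 : ¬ a + m * (t - a) ≤ a := by linarith
      simp only [h, if_false, h2]
      field_simp
      ring
  right_inv := by
    intro t
    by_cases h : t ≤ a
    · simp [h]
    · have h1 : 0 < m⁻¹ * (t - a) := mul_pos (inv_pos.2 hm) (by linarith [not_le.1 h])
      have h2 : ¬ a + m⁻¹ * (t - a) ≤ a := by linarith
      simp only [h, if_false, h2]
      field_simp
      ring
  map_rel_iff' := by
    intro s t
    simp only [Equiv.coe_fn_mk]
    by_cases hs : s ≤ a
    · by_cases ht : t ≤ a
      · simp [hs, ht]
      · have h1 : 0 < m * (t - a) := mul_pos hm (by linarith [not_le.1 ht])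
        simp only [hs, ht, if_true, if_false]
        exact ⟨fun _ => by linarith [not_le.1 ht], fun _ => by linarith⟩
    · by_cases ht : t ≤ a
      · have h1 : 0 < m * (s - a) := mul_pos hm (by linarith [not_le.1 hs])
        simp only [hs, ht, if_true, if_false]
        exact ⟨fun h => by linarith, fun h => by linarith [not_le.1 hs]⟩
      · simp only [hs, ht, if_false]
        constructor
        · intro h
          have h1 : m * (s - a) ≤ m * (t - a) := by linarith
          have h2 := le_of_mul_le_mul_left h1 hm
          linarith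
        · intro h
          have h1 := mul_le_mul_of_nonneg_left (by linarith : s - a ≤ t - a) hm.le
          linarith

theorem pv_le {a m : ℝ} {hm : 0 < m} {t : ℝ} (h : t ≤ a) : pv a m hm t = t := if_pos h

theorem pv_ge {a m : ℝ} {hm : 0 < m} {t : ℝ} (h : a ≤ t) : pv a m hm t = a + m * (t - a) := by
  rcases h.eq_or_lt with rfl | h
  · rw [pv_le le_rfl]
    ring
  · exact if_neg (not_le.2 h)

/-- **PL**: move `u` to `s` inside `(a, b)` -/
theorem exists_move {a b u s : ℝ} (hau : a < u) (hub : u < b) (has : a < s) (hsb : s < b) :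
    ∃ ψ : ℝ ≃o ℝ, ψ u = s ∧ ∀ t, t ≤ a ∨ b ≤ t → ψ t = t := by
  obtain ⟨m, hm⟩ : ∃ m, m = (s - a) / (u - a) := ⟨_, rfl⟩
  obtain ⟨m', hm'⟩ : ∃ m', m' = (b - s) / (b - u) := ⟨_, rfl⟩
  have h1 : 0 < m := by
    rw [hm]
    exact div_pos (by linarith) (by linarith)
  have h2 : 0 < m' := by
    rw [hm']
    exact div_pos (by linarith) (by linarith)
  have h3 : m * (u - a) = s - a := by
    rw [hm]
    exact div_mul_cancel₀ _ (by linarith)
  have h4 : m' * (b - u) = b - s := by
    rw [hm']
    exact div_mul_cancel₀ _ (by linarith)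
  have h12 : m' / m * m = m' := div_mul_cancel₀ _ h1.ne'
  refine ⟨((pv a m h1).trans (pv s (m' / m) (div_pos h2 h1))).trans
    (pv b m'⁻¹ (inv_pos.2 h2)), ?_, ?_⟩
  · have e1 : pv a m h1 u = s := by
      rw [pv_ge hau.le, h3]
      ring
    rw [OrderIso.trans_apply, OrderIso.trans_apply, e1, pv_le le_rfl, pv_le hsb.le]
  · rintro t (ht | ht)
    · rw [OrderIso.trans_apply, OrderIso.trans_apply, pv_le ht, pv_le (show t ≤ s by linarith),
        pv_le (show t ≤ b by linarith)]
    · have e1 : pv a m h1 t = s + m * (t - u) := by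
        rw [pv_ge (by linarith)]
        linear_combination h3
      have e2 : pv s (m' / m) (div_pos h2 h1) (s + m * (t - u)) = b + m' * (t - b) := by
        have h5 : 0 ≤ m * (t - u) := mul_nonneg h1.le (by linarith)
        rw [pv_ge (by linarith)]
        linear_combination (t - u) * h12 + h4
      have h6 : 0 ≤ m' * (t - b) := mul_nonneg h2.le (by linarith)
      rw [OrderIso.trans_apply, OrderIso.trans_apply, e1, e2, pv_ge (by linarith)]
      field_simp
      ring

end Pool.Agent.PWQ
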